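import Mathlib
import Pool.Agent.N546.PN.Stm

/-!
PN/CHO (helper61 for project PN of helper546): choice of an integral vector with Dirichlet's theorem.
-/

set_option autoImplicit false

namespace Pool.Agent.N61.PN

open Pool.Agent.N546.PN

/-- an integer in a residue class near a real number, not divisible by `q` -/
theorem near (M : ℕ) (hM : 1 ≤ M) (q : ℕ) (hqM : M < q) (a : ℤ) (y : ℝ) :
    ∃ b : ℤ, (M : ℤ) ∣ b - a ∧ ¬ (q : ℤ) ∣ b ∧ |(b : ℝ) - y| ≤ 2 * M := by
  have hM0 : (0 : ℝ) < M := by exact_mod_cast hM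
  obtain ⟨z, hz⟩ : ∃ z : ℤ, z = round ((y - a) / M) := ⟨_, rfl⟩
  have h1 := abs_sub_round ((y - a) / M)
  rw [← hz] at h1
  have h2 : |y - a - M * z| ≤ 1 / 2 * M := by
    have h3 : y - a - M * z = ((y - a) / M - z) * M := by
      field_simp
    rw [h3, abs_mul, abs_of_pos hM0]
    exact mul_le_mul_of_nonneg_right h1 hM0.le
  rw [abs_le] at h2
  by_cases hq : (q : ℤ) ∣ a + M * z
  · refine ⟨a + M * (z + 1), ⟨z + 1, by ring⟩, fun h => ?_, ?_⟩
    · have h4 : (q : ℤ) ∣ M := by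
        have h5 := dvd_sub h hq
        rwa [show a + (M : ℤ) * (z + 1) - (a + M * z) = M by ring] at h5
      have h6 := Nat.le_of_dvd hM (Int.natCast_dvd_natCast.1 h4)
      omega
    · push_cast
      rw [abs_le]
      constructor <;> nlinarith [h2.1, h2.2]
  · refine ⟨a + M * z, ⟨z, by ring⟩, hq, ?_⟩
    push_cast
    rw [abs_le]
    constructor <;> nlinarith [h2.1, h2.2]

/-- the case of a nonzero coordinate -/
theorem core (n : ℕ) (i₀ i₂ : Fin (n + 1)) (hi : i₀ ≠ i₂) (M : ℕ) (hM : 1 ≤ M)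
    (a : Fin (n + 1) → ℤ) (x : Fin (n + 1) → ℝ) (δ : ℝ) (hδ : 0 < δ) (hx : x i₀ ≠ 0) :
    ∃ (b : Fin (n + 1) → ℤ) (t : ℝ), 0 < t ∧ (∀ i, (M : ℤ) ∣ b i - a i) ∧
    (∀ i, |(b i : ℝ) / t - x i| < δ) ∧ b i₀ ≠ 0 ∧ b i₂ ≠ 0 ∧
    ∀ p : ℕ, p.Prime → (p : ℤ) ∣ b i₀ → (p : ℤ) ∣ b i₂ → p ∣ M := by
  classical
  obtain ⟨s, hs1, hs2⟩ : ∃ s : ℤ, s * s = 1 ∧ 0 < (s : ℝ) / x i₀ := by
    rcases lt_or_gt_of_ne hx with h | h
    · refine ⟨-1, by norm_num, ?_⟩
      push_cast
      exact div_pos_of_neg_of_neg (by norm_num) h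
    · refine ⟨1, by norm_num, ?_⟩
      push_cast
      exact div_pos one_pos h
  have hg0 : 0 < Int.gcd (a i₀) M := Int.gcd_pos_of_ne_zero_right _ (by exact_mod_cast (by omega : M ≠ 0))
  obtain ⟨g, hg⟩ : ∃ g : ℕ, g = Int.gcd (a i₀) M := ⟨_, rfl⟩
  rw [← hg] at hg0
  obtain ⟨a', ha'⟩ : (g : ℤ) ∣ a i₀ := by rw [hg]; exact Int.gcd_dvd_left _ _
  obtain ⟨M', hM'⟩ : g ∣ M := by
    have h1 : (g : ℤ) ∣ M := by rw [hg]; exact Int.gcd_dvd_right _ _
    exact Int.natCast_dvd_natCast.1 h1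
  have hM0 : M' ≠ 0 := by
    rintro rfl
    omega
  have hcop : IsCoprime a' (M' : ℤ) := by
    rw [Int.isCoprime_iff_gcd_eq_one]
    have h1 : Int.gcd (a i₀) M = g * Int.gcd a' M' := by
      rw [ha', hM']
      push_cast
      rw [Int.gcd_mul_left, Int.natAbs_natCast]
    rw [← hg] at h1
    exact Nat.eq_of_mul_eq_mul_left hg0 (by rw [← h1, mul_one])
  have hcop2 : IsCoprime (s * a') (M' : ℤ) := by
    have h1 : IsCoprime s (M' : ℤ) := ⟨s, 0, by rw [hs1]; ring⟩
    exact h1.mul_left hcop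
  obtain ⟨q, hq1, hq2, hq3⟩ := Nat.forall_exists_prime_gt_and_zmodEq
    (max M ⌈2 * M / (δ * ((s : ℝ) / x i₀))⌉₊) hM0 hcop2
  have hqM : M < q := lt_of_le_of_lt (le_max_left _ _) hq1
  have hq0 : (0 : ℝ) < q := by exact_mod_cast hq2.pos
  have hgR : (1 : ℝ) ≤ g := by exact_mod_cast hg0
  obtain ⟨t, ht⟩ : ∃ t : ℝ, t = g * q * ((s : ℝ) / x i₀) := ⟨_, rfl⟩
  have ht0 : 0 < t := by
    rw [ht]
    positivity
  have ht1 : 2 * M < δ * t := by
    have h1 : 2 * M / (δ * ((s : ℝ) / x i₀)) < q := by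
      refine lt_of_le_of_lt (Nat.le_ceil _) ?_
      exact_mod_cast lt_of_le_of_lt (le_max_right _ _) hq1
    rw [div_lt_iff₀ (by positivity)] at h1
    have h2 : (q : ℝ) * (δ * ((s : ℝ) / x i₀)) ≤ δ * t := by
      rw [ht]
      have h3 : (q : ℝ) * (δ * ((s : ℝ) / x i₀)) * 1 ≤ (q : ℝ) * (δ * ((s : ℝ) / x i₀)) * g :=
        mul_le_mul_of_nonneg_left hgR (by positivity)
      linarith
    linarith
  have hb := fun i => near M hM q hqM (a i) (t * x i)
  choose b' hb1 hb2 hb3 using hb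
  have e0 : (fun i => if i = i₀ then s * g * q else b' i) i₀ = s * g * q := if_pos rfl
  have e2 : (fun i => if i = i₀ then s * g * q else b' i) i₂ = b' i₂ := if_neg hi.symm
  refine ⟨fun i => if i = i₀ then s * g * q else b' i, t, ht0, fun i => ?_, fun i => ?_, ?_, ?_, ?_⟩
  · by_cases h : i = i₀
    · rw [h, e0]
      obtain ⟨k, hk⟩ := hq3.dvd
      refine ⟨-(s * k), ?_⟩
      have h1 : (q : ℤ) = s * a' - M' * k := by linarith
      rw [h1, ha', hM']
      push_cast
      have h2 : s * (g : ℤ) * (s * a' - M' * k) - g * a' = (s * s) * g * a' - s * g * M' * k - g * a' := by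
        ring
      rw [h2, hs1]
      ring
    · show (M : ℤ) ∣ (if i = i₀ then s * g * q else b' i) - a i
      rw [if_neg h]
      exact hb1 i
  · by_cases h : i = i₀
    · show |(((if i = i₀ then s * g * q else b' i : ℤ)) : ℝ) / t - x i| < δ
      rw [if_pos h, h]
      have h1 : (((s * g * q : ℤ)) : ℝ) / t = x i₀ := by
        rw [ht]
        push_cast
        have hs0 : (s : ℝ) ≠ 0 := by
          intro h0
          rw [h0, zero_div] at hs2
          exact lt_irrefl _ hs2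
        have hg1 : (g : ℝ) ≠ 0 := by positivity
        field_simp
      rw [h1, sub_self, abs_zero]
      exact hδ
    · show |(((if i = i₀ then s * g * q else b' i : ℤ)) : ℝ) / t - x i| < δ
      rw [if_neg h]
      have h1 : (b' i : ℝ) / t - x i = ((b' i : ℝ) - t * x i) / t := by
        field_simp
      rw [h1, abs_div, abs_of_pos ht0, div_lt_iff₀ ht0]
      exact lt_of_le_of_lt (hb3 i) ht1
  · rw [e0]
    have hs0 : s ≠ 0 := by
      rintro rfl
      norm_num at hs1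
    exact mul_ne_zero (mul_ne_zero hs0 (by exact_mod_cast hg0.ne')) (by exact_mod_cast hq2.pos.ne')
  · rw [e2]
    intro h
    exact hb2 i₂ (by rw [h]; exact dvd_zero _)
  · intro p hp h1 h2
    rw [e0] at h1
    rw [e2] at h2
    have hp' := Nat.prime_iff_prime_int.1 hp
    rcases hp'.dvd_or_dvd h1 with h3 | h3
    · rcases hp'.dvd_or_dvd h3 with h4 | h4
      · exfalso
        have h5 : (p : ℤ) ∣ 1 := by
          rw [← hs1]
          exact dvd_mul_of_dvd_left h4 _
        exact hp'.not_isUnit (isUnit_of_dvd_one h5)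
      · rw [hM']
        exact dvd_mul_of_dvd_left (Int.natCast_dvd_natCast.1 h4) _
    · exfalso
      have h4 := (Nat.prime_dvd_prime_iff_eq hp hq2).1 (Int.natCast_dvd_natCast.1 h3)
      rw [h4] at h2
      exact hb2 i₂ h2

theorem cho_ : S_CHO := by
  classical
  intro n i₀ i₂ hi M hM a x δ hδ
  by_cases hx : x i₀ = 0
  · have h1 : (Function.update x i₀ (δ / 2)) i₀ ≠ 0 := by
      rw [Function.update_self]
      positivity
    obtain ⟨b, t, ht, h2, h3, h4⟩ := core n i₀ i₂ hi M hM a (Function.update x i₀ (δ / 2)) (δ / 2)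
      (by positivity) h1
    refine ⟨b, t, ht, h2, fun i => ?_, h4⟩
    have h5 := h3 i
    by_cases h : i = i₀
    · rw [h] at h5 ⊢
      rw [Function.update_self] at h5
      rw [hx]
      rw [abs_lt] at h5 ⊢
      constructor <;> linarith
    · rw [Function.update_of_ne h] at h5
      linarith
  · exact core n i₀ i₂ hi M hM a x δ hδ hx

end Pool.Agent.N61.PN
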